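import Mathlib
import Pool.Agent.Helper95.ARWDefs
import Pool.Agent.Helper95.ARWZero

set_option autoImplicit false

open MeasureTheory ProbabilityTheory

namespace Pool.Agent.Results.MP_8df5c2_pr.Unbounded

open Pool.Agent.Helper95.ARW

/-- **Q1 holds.** Let `X^{(1)}, …, X^{(N)}` be independent copies of a symmetric transient random
walk on `ℤ^d` satisfying the Barlow–Taylor condition with index `α`, and let `d > α N`. If
`Dim A > d - α N`, then the range of the additive walk meets `A` in an unbounded set a.s. -/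
theorem result {d N : ℕ} (hN : 1 ≤ N) {α : ℝ} (hd : α * N < d) {μ : Measure (Fin d → ℤ)}
    (hμ : StepLaw μ α) (A : Set (Fin d → ℤ)) (hA : d - α * N < macroDim A)
    {Ω : Type*} {mΩ : MeasurableSpace Ω} (P : Measure Ω) [IsProbabilityMeasure P]
    (ξ : Fin N → ℕ → Ω → (Fin d → ℤ)) (hξ : IsSteps P μ ξ) :
    ∀ᵐ ω ∂P, ¬ Bornology.IsBounded (addRange ξ ω ∩ A) :=
  q1 hμ hN hd hξ hA

end Pool.Agent.Results.MP_8df5c2_pr.Unbounded
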